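import Pool.Agent.H440.WG.Asm

/-!
# The Hasse-Weil conjecture and the affine representations of one-relator groups

For a group `Γ` and a finite field `F` let `N_Γ(F)` be the number of the homomorphisms of `Γ` to the
group `F ≃ᵃ[F] F` of the permutations `x ↦ a x + b` of `F`, and put
`Z_Γ(s) = exp (∑_p ∑_m N_Γ(𝔽_(p^m)) p^(-m s) / m)`. Let `S` be a set of complex numbers which is
invariant under the translation by `1`, for example the set of all complex numbers, or the set of all
`s` such that `2 Re s` is an integer. We show, without any hypothesis:

* for every `n` the zeta functions of all schemes of finite type over `ℤ` with fibres of dimension at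
  most `n` are meromorphic in the plane with all zeros and poles in `S` if and only if this is true for
  the functions `Z_Γ` of the groups
  `Γ = ⟨x_1, …, x_a, y_1, …, y_b, z_1, …, z_c, t, u | [t, u] = ∏_{(i, j, k) ∈ L} [t, u]^(x_i y_j z_k)⟩`
  with `c ≤ n + 2`, and then the same is true for the zeta functions of the flat integral schemes of
  dimension at most `n + 1` and for the L-functions of the interesting cohomology groups in dimension
  at most `n`;
* the zeta functions of all schemes of finite type over `ℤ` are meromorphic in the plane with all zeros
  and poles in `S` if and only if this is true for the functions `Z_Γ` of all finitely generated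
  groups, or only of all groups with finitely many generators and one relation.
-/

set_option autoImplicit false

namespace Pool.Agent.Results.MP_039d94_nt.OneRelatorGroups

open Pool.Agent.H440.WG Pool.Agent.Results.MP_039d94_nt.ZeroOneMatrices

theorem result (S : Set ℂ) (hS : ∀ s : ℂ, s + 1 ∈ S ↔ s ∈ S) :
    (∀ n : ℕ, (AllSchemes S n ↔ TripleGroups S (n + 2)) ∧
      (TripleGroups S (n + 2) → FlatSchemes S (n + 1) ∧ LFunctions S n)) ∧
    List.TFAE [FiniteTypeSchemes S, FinitelyGenerated S, OneRelator S, ∀ c, TripleGroups S c] := by
  refine ⟨fun n => ⟨⟨groups_of_all hS, all_of_groups hS⟩, fun h =>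
    (ZeroOneMatrices.result S hS n).2 (((ZeroOneMatrices.result S hS n).1.out 0 3).1
      (all_of_groups hS h))⟩, ?_⟩
  tfae_have 1 → 2 := groups_of_finiteType
  tfae_have 2 → 3 := oneRelator_of_finGen
  tfae_have 3 → 4 := triple_of_oneRelator
  tfae_have 4 → 1 := finiteType_of_groups hS
  tfae_finish

end Pool.Agent.Results.MP_039d94_nt.OneRelatorGroups
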