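import Pool.Agent.H854.Z.Main
import Pool.Agent.H854.Z.Sm
import Pool.Graph.R_pool_sql_team_seeded_3997aac3.Results.MP_039d94_nt.ZeroOneMatrices

/-!
# The Hasse-Weil conjecture in dimension `n` and one sequence of smooth affine cubic hypersurfaces
over the integers

For `c, m ≥ 0` let `E_{c,m}` be the following affine scheme over `ℤ` (`cubic c m`). There are variables
`y_j`, `z_k`, `p_kj`, `a_kij` for `k < c` and `i, j < m`, and further variables `u_rl` for all triples
`r = (k, i, j)` and `l < m 2 ^ ν(r)`, where `ν(r)` is the number of the triple `r` in a fixed
enumeration of all triples of natural numbers. The equations are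

  `p_kj - z_k y_j`,  `∑_{k,j} a_kij p_kj` (for `i < m`),  `a_kij ^ 2 - a_kij`,  `a_kij u_(kij)l`.

`E_{c,m}` is the hypersurface `x ^ 2 - x = ∑ t_e (equation e)` with further variables `x` and `t_e`
for all equations `e`. It is smooth over `ℤ` and its equation has degree at most three.

We prove, without any hypothesis, for all sets `S` of complex numbers which are invariant under
translation by `1`, for example the set of all complex numbers or the set of all `s` such that
`2 Re s` is an integer:

* for every `n`, the zeta functions of **all** schemes of finite type over `ℤ` with fibres of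
  dimension at most `n` are meromorphic in the plane with all zeros and poles in `S` if and only if
  this is true for the zeta functions of the hypersurfaces `E_{n+2,m}` for **infinitely many** `m`
  (and then it is true for all `m`);
* the zeta functions of all schemes of finite type over `ℤ`, of all dimensions, have this property if
  and only if the zeta functions of `E_{m,m}` have it for infinitely many `m`.

So a single scheme with a bad zeta function would make almost all members of the sequence bad. If the
conditions of the first part are satisfied, then the L-functions of the interesting cohomology groups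
of the schemes over `ℤ[1/N]` with fibres of dimension at most `n` are meromorphic in the plane with
all zeros and poles in `S` (`LFunctions`): for `n = 1` for instance the L-functions of `H^1` of all
smooth projective curves over number fields.

Idea of the proof. Counting points shows that the zeta function of `E_{c,m}` is, up to a translation,
the product of a translate of the Riemann zeta function and of translates of the functions `Z_A` of
**all** lists `A` of `c` matrices of size `m × m` with entries `0` and `1` (`Z_A` counts the solutions
of the bilinear equations given by `A`). So the problem is to recover all the factors from infinitely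
many of these products. The variables `u_rl` translate the factor of `A` by `m` times the number
whose binary digits are given by `A`. So the translations of any two factors differ by at least `m`,
and in the order of the translations the place of the factor of a given `A` is the same for all large
`m`. As all factors converge in a fixed half-plane (after normalization), one obtains the continuation
of the factors to the half-planes `Re s > 1 - m`, by induction on the place; and there are infinitely
many `m`. The functions `Z_A` give the zeta functions of all schemes by the library theorem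
`ZeroOneMatrices`.
-/

set_option autoImplicit false

namespace Pool.Agent.Results.MP_039d94_nt.OneSequenceOfCubics

open Q54.ZE CategoryTheory AlgebraicGeometry Pool.Agent.H854.Z
open Pool.Agent.Results.MP_039d94_nt.ZeroOneMatrices (ContinuesIn zeta AllSchemes LFunctions
  ZeroOneNets)

/-- The smooth affine cubic hypersurface `E_{c,m}`. -/
noncomputable abbrev cubic (c m : ℕ) : Scheme.{0} := Spec (CommRingCat.of (HRing c m))

/-- The zeta functions of the hypersurfaces `E_{c,m}` are meromorphic in the plane with all zeros and
poles in `S`, for `c = f m` and infinitely many `m`. -/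
def ForInfinitelyMany (S : Set ℂ) (f : ℕ → ℕ) : Prop :=
  ∃ᶠ m in Filter.atTop, ContinuesIn S (zeta (cubic (f m) m))

/-- The zeta functions of the hypersurfaces `E_{c,m}` are meromorphic in the plane with all zeros and
poles in `S`, for `c = f m` and all `m`. -/
def ForAll (S : Set ℂ) (f : ℕ → ℕ) : Prop := ∀ m, ContinuesIn S (zeta (cubic (f m) m))

lemma cubic_iff (S : Set ℂ) (c m : ℕ) :
    ContinuesIn S (zeta (cubic c m)) ↔ Mer S (idN (maxS (HRing c m))) :=
  (ZeroOneMatrices.continues_iff S (Pool.Agent.Y116.UV.aff ℤ (HRing c m))).trans (zmer_aff _)

lemma net_continues (S : Set ℂ) {c a b : ℕ} (A : Fin c → Matrix (Fin a) (Fin b) ℤ) :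
    ContinuesIn S (netZeta A) ↔
      ∃ F : ℂ → ℂ, NoDiv S F ∧ ∃ τ : ℝ, ∀ z : ℂ, τ < z.re → F z = netZeta A z :=
  ⟨fun ⟨F, hF, h⟩ => ⟨F, ⟨hF.1, hF.2⟩, h⟩, fun ⟨F, hF, h⟩ => ⟨F, ⟨hF.mero, hF.order⟩, h⟩⟩

lemma nets_of_freq {S : Set ℂ} (hS : Tr S) {f : ℕ → ℕ} (hf : Monotone f)
    (h1 : ∀ m, 0 < m → 0 < f m) (h : ForInfinitelyMany S f) {c m₀ : ℕ} (hc : c ≤ f m₀) :
    ZeroOneNets S c := by
  intro a b A hA
  rw [net_continues]
  exact net_of_freq hS hf h1 (h.mono fun m hm => (cubic_iff S _ _).1 hm) hc A hA

lemma cubic_of_nets {S : Set ℂ} (hS : Tr S) {c : ℕ} (h : ZeroOneNets S c) (m : ℕ) :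
    ContinuesIn S (zeta (cubic c m)) := by
  rw [cubic_iff]
  exact hring_of_net hS fun A hA => (net_continues S A).1 (h m m A hA)

/-- **The Hasse-Weil conjecture in dimension `n` is a statement on infinitely many members of one
sequence of smooth affine cubic hypersurfaces over the integers.** -/
theorem result (S : Set ℂ) (hS : ∀ s, s + 1 ∈ S ↔ s ∈ S) :
    (∀ n : ℕ, List.TFAE [AllSchemes S n, ForInfinitelyMany S fun _ => n + 2,
        ForAll S fun _ => n + 2] ∧
      (ForInfinitelyMany S (fun _ => n + 2) → LFunctions S n)) ∧
    List.TFAE [∀ n, AllSchemes S n, ForInfinitelyMany S id, ForAll S id] ∧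
    ∀ c m : ℕ, Smooth (Spec.map (CommRingCat.ofHom (algebraMap ℤ (HRing c m)))) ∧
      (hyper c m).totalDegree ≤ 3 := by
  have hZ := fun n => ZeroOneMatrices.result S hS n
  have h12 : ∀ n, AllSchemes S n → ZeroOneNets S (n + 2) := fun n => ((hZ n).1.out 0 3).1
  have h21 : ∀ n, ZeroOneNets S (n + 2) → AllSchemes S n := fun n => ((hZ n).1.out 0 3).2
  have h23 : ∀ n, ForInfinitelyMany S (fun _ => n + 2) → ZeroOneNets S (n + 2) := fun n h =>
    nets_of_freq hS monotone_const (fun _ _ => Nat.succ_pos _) h (m₀ := 0) le_rfl
  refine ⟨fun n => ⟨?_, fun h => ((hZ n).2 (h23 n h)).2⟩, ?_, fun c m => ⟨?_, deg_hyper c m⟩⟩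
  · tfae_have 1 → 3 := fun h m => cubic_of_nets hS (h12 n h) m
    tfae_have 3 → 2 := fun h => Filter.Eventually.frequently (Filter.Eventually.of_forall h)
    tfae_have 2 → 1 := fun h => h21 n (h23 n h)
    tfae_finish
  · tfae_have 1 → 3 := by
      intro h m
      have h3 : ZeroOneNets S m := by
        intro a b A hA
        have h4 := h12 m (h m) a b
        -- add two matrices which are zero
        have h5 : ContinuesIn S (netZeta (c := m + 2) (fun k =>
            if h : k.1 < m then A ⟨k.1, h⟩ else 0)) := h4 _ fun k i j => by
          split
          · exact hA _ i j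
          · exact Or.inl rfl
        obtain ⟨s, hs, hA', -⟩ := exists_mat A hA
        have hs' : Bdd s (m + 2) a b := fun k i j h6 =>
          ⟨(hs k i j h6).1.trans_le (Nat.le_add_right _ _), (hs k i j h6).2⟩
        have h6 : (fun k : Fin (m + 2) => if h : k.1 < m then A ⟨k.1, h⟩ else 0) =
            mat s (m + 2) a b := by
          funext k
          ext i j
          split
          · rw [hA']
            rfl
          · rename_i hk
            change 0 = if num k i j ∈ s then (1 : ℤ) else 0
            rw [if_neg fun h7 => hk (hs _ _ _ h7).1]
        rw [h6, net_continues, net_iff hS hs'] at h5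
        rw [hA', net_continues, net_iff hS hs]
        exact h5
      exact cubic_of_nets hS h3 m
    tfae_have 3 → 2 := fun h => Filter.Eventually.frequently (Filter.Eventually.of_forall h)
    tfae_have 2 → 1 := fun h n => h21 n
      (nets_of_freq hS monotone_id (fun _ h => h) h (m₀ := n + 2) le_rfl)
    tfae_finish
  · rw [HasRingHomProperty.Spec_iff (P := @Smooth)]
    exact RingHom.smooth_algebraMap.mpr (smooth_hring c m)

end Pool.Agent.Results.MP_039d94_nt.OneSequenceOfCubics
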