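import Pool.Agent.H876.PL.ZInt
import Pool.Agent.H876.PL.Ring

/-!
# The zeta functions of all arithmetic schemes and configurations of points on four lines

Fix the four points `(1 : 0 : 0)`, `(0 : 1 : 0)`, `(0 : 0 : 1)`, `(1 : 1 : 1)` of the projective plane and
the four lines `y = 0`, `y = z`, `z = 0`, `x = 0`; the first three of them meet in `(1 : 0 : 0)`. A
datum consists of the numbers of the lines of `N` further points and of a set of triples of the
`N + 4` points. The space of the configurations with this datum is the affine scheme over `ℤ` of all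
positions of the `N` points on their lines for which the collinear triples are exactly the given ones.

We show that every scheme of finite type over `ℤ` with fibres of dimension at most `n` is the disjoint
union of finitely many locally closed subschemes which are spaces of configurations of pairwise
distinct points, integral, smooth over `ℤ` or over a prime field, and with fibres of dimension at most
`n`. So its zeta function is the product of their zeta functions, and the number of its points over
each finite field is the sum of the numbers of their configurations over this field. For every set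
`S` of complex numbers the zeta functions of all schemes with fibres of dimension at most `n` are
meromorphic in the plane with zeros and poles in `S` if and only if this is so for these spaces, and
then (if `S` is invariant under translation by `1`) the L-functions of the interesting cohomology
groups of the schemes over `ℤ[1/N]` with fibres of dimension at most `n` have the same property.
-/

set_option autoImplicit false

namespace Pool.Agent.Results.MP_039d94_nt.PointConfigurations

open Q54.ZE CategoryTheory AlgebraicGeometry Pool.Agent.Y116.UV Pool.Agent.Z125.UN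
open Pool.Agent.H876.PL

/-- `L` is, on some right half-plane, equal to a meromorphic function in the plane all of whose zeros
and poles are in `S`. -/
def ContinuesIn (S : Set ℂ) (L : ℂ → ℂ) : Prop :=
  ∃ F : ℂ → ℂ, (MeromorphicOn F Set.univ ∧ ∀ s ∉ S, meromorphicOrderAt F s = 0) ∧
    ∃ σ : ℝ, ∀ s : ℂ, σ < s.re → F s = L s

/-- The zeta function of the scheme `X`. -/
noncomputable def zeta (X : Scheme.{0}) (s : ℂ) : ℂ :=
  ∏' x : {x : X // IsClosed ({x} : Set X)}, (1 - ((Nat.card (X.residueField x.1) : ℂ) ^ (-s)))⁻¹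

/-- The datum of a space of configurations: there are `N` variable points besides the four points of
the frame, the point `i` is on the line number `line i`, and `coll` is the set of the collinear
triples. -/
structure Datum where
  N : ℕ
  line : Fin N → Fin 4
  coll : Finset (Lab 0 (Fin N) × Lab 0 (Fin N) × Lab 0 (Fin N))

/-- The ring of functions on the space of configurations, over the integers. -/
abbrev Datum.ring (d : Datum) : Type := ConfRing (![] : Fin 0 → ℤ) d.line d.coll

/-- The space of configurations. -/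
noncomputable abbrev Datum.space (d : Datum) : Scheme.{0} := Spec (CommRingCat.of d.ring)

/-- The configurations over the field `K`: the positions of the `N` variable points on their lines for
which exactly the triples in `coll` are collinear. -/
def Datum.Config (d : Datum) (K : Type) [Field K] : Type :=
  {p : Fin d.N → K // ∀ t : Lab 0 (Fin d.N) × Lab 0 (Fin d.N) × Lab 0 (Fin d.N),
    det3 (![] : Fin 0 → ℤ) d.line p t = 0 ↔ t ∈ d.coll}

/-- The points of the configurations are pairwise distinct, and their space is integral, smooth over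
`ℤ` or over a prime field, with fibres of dimension at most `n` over `Spec ℤ`. -/
structure Datum.IsFine (d : Datum) (n : ℕ) : Prop where
  distinct : Distinct d.coll
  domain : IsDomain d.ring
  smooth : Algebra.Smooth ℤ d.ring ∨ ∃ (p : ℕ) (_ : Fact p.Prime) (_ : Algebra (ZMod p) d.ring),
    Algebra.Smooth (ZMod p) d.ring
  fibres : FibLE n (Spec.map (CommRingCat.ofHom (algebraMap ℤ d.ring)))

/-- The zeta functions of all schemes of finite type over `ℤ` with fibres of dimension at most `n`. -/
def AllSchemes (S : Set ℂ) (n : ℕ) : Prop :=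
  ∀ (X : Scheme.{0}) (f : X ⟶ Spec (CommRingCat.of ℤ)),
    LocallyOfFiniteType f → QuasiCompact f → FibLE n f → ContinuesIn S (zeta X)

/-- The zeta functions of the spaces of configurations with fibres of dimension at most `n`. -/
def Configurations (S : Set ℂ) (n : ℕ) : Prop :=
  ∀ d : Datum, d.IsFine n → ContinuesIn S (zeta d.space)

/-- `f : X ⟶ Spec ℤ[1/N]` is of finite type with fibres of dimension at most `n`. -/
def IsModel (n : ℕ) {N : ℕ} {X : Scheme.{0}} (f : X ⟶ Spec (CommRingCat.of (ZN N))) : Prop :=
  LocallyOfFiniteType f ∧ QuasiCompact f ∧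
    FibLE n (f ≫ Spec.map (CommRingCat.ofHom (algebraMap ℤ (ZN N))))

/-- The numbers of points of `X` are `#X(𝔽_q) = ∑_l c_l q^(t_l) #Y_l(𝔽_q) + ε ∑_k α_{p,k}^m` for all
`q = p^m` with `p` prime to `N`. -/
def PointsAre (N : ℕ) (X : Scheme.{0}) {b r : ℕ} (Y : Fin r → Scheme.{0}) (c : Fin r → ℤ)
    (t : Fin r → ℕ) (ε : ℤ) (α : Nat.Primes → Fin b → ℂ) : Prop :=
  ∀ x : Nat.Primes × ℕ, ¬ x.1.1 ∣ N → (ptCount X x : ℂ) =
    ∑ l, (c l : ℂ) * (x.1.1 : ℂ) ^ ((x.2 + 1) * t l) * ptCount (Y l) x +
      ε * ∑ k, α x.1 k ^ (x.2 + 1)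

/-- The L-functions of the interesting cohomology groups of schemes over `ℤ[1/N]` with fibres of
dimension at most `n`. -/
def LFunctions (S : Set ℂ) (n : ℕ) : Prop :=
  ∀ (N : ℕ) (X : Scheme.{0}) (f : X ⟶ Spec (CommRingCat.of (ZN N))), IsModel n f →
    ∀ (b r : ℕ) (Y : Fin r → Scheme.{0}) (g : ∀ l, Y l ⟶ Spec (CommRingCat.of (ZN N))),
      (∀ l, IsModel n (g l)) →
    ∀ (c : Fin r → ℤ) (t : Fin r → ℕ) (ε : ℤ) (α : Nat.Primes → Fin b → ℂ) (w : ℝ),
      ε * ε = 1 → (∀ p k, ‖α p k‖ ≤ (p.1 : ℝ) ^ w) → PointsAre N X Y c t ε α →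
      ContinuesIn S (hasseWeil N α)

/-- `X` is the disjoint union of the locally closed subschemes `g i`, which are spaces of
configurations; its points over the finite fields and its zeta function are obtained from them. -/
structure Decomposition (n : ℕ) (X : Scheme.{0}) {k : ℕ} (d : Fin k → Datum)
    (g : ∀ i, (d i).space ⟶ X) : Prop where
  fine : ∀ i, (d i).IsFine n
  immersion : ∀ i, IsImmersion (g i)
  partition : ∀ x : X, ∃! i, x ∈ Set.range (g i)
  points : ∀ (K : Type) [Field K] [Finite K],
    Nat.card (Spec (CommRingCat.of K) ⟶ X) = ∑ i, Nat.card ((d i).Config K)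
  zeta_eq : ∃ σ : ℝ, ∀ s : ℂ, σ < s.re → zeta X s = ∏ i, zeta (d i).space s

/-- the family of the spaces of configurations -/
def Fam (n : ℕ) (C : Sch ℤ) : Prop := ∃ d : Datum, d.IsFine n ∧ C = aff ℤ d.ring

lemma continues_iff (S : Set ℂ) (X : Sch ℤ) : ContinuesIn S (zeta X.left) ↔ ZMer S X :=
  ⟨fun ⟨F, hF, h⟩ => ⟨F, ⟨hF.1, hF.2⟩, h⟩, fun ⟨F, hF, h⟩ => ⟨F, ⟨hF.mero, hF.order⟩, h⟩⟩

lemma dim_fine {d : Datum} {n : ℕ} (h1 : Distinct d.coll) (h2 : IsDomain d.ring)
    (h3 : SmZ d.ring) (h4 : FibLE n (X := (aff ℤ d.ring).left) (aff ℤ d.ring).hom) : d.IsFine n :=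
  ⟨h1, h2, h3, h4⟩

/-- The decomposition. -/
theorem strata (n : ℕ) (X : Sch ℤ) (hX : FT False X) (hn : FibLE n (X := X.left) X.hom) :
    Strata (Fam n) X := by
  refine conf_int (glue_str False (Fam n)) (hered_fib n)
    (confFam_of_ring (glue_str False (Fam n)) (hered_fib n) generic_int ?_) ?_ X hX hn
  · intro N l Z h1 h2 h3 h4
    exact strata_one ⟨⟨N, l, Z⟩, dim_fine (d := ⟨N, l, Z⟩) h1 h2 h3 h4, rfl⟩
  · intro B _ _ hB
    exact strata_empty _ (inferInstanceAs (IsEmpty (PrimeSpectrum B)))

lemma config_card (d : Datum) (K : Type) [Field K] :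
    Nat.card (Spec (CommRingCat.of K) ⟶ d.space) = Nat.card (d.Config K) := by
  have e1 : (Spec (CommRingCat.of K) ⟶ d.space) ≃ (d.ring →+* K) :=
    Spec.homEquiv.trans (ConcreteCategory.homEquiv (C := CommRingCat))
  have e2 : (d.ring →+* K) ≃ (d.ring →ₐ[ℤ] K) := ⟨fun f => AlgHom.mk f fun z =>
      RingHom.congr_fun (RingHom.ext_int (f.comp (algebraMap ℤ d.ring)) (algebraMap ℤ K)) z,
    fun f => f.toRingHom, fun _ => rfl, fun _ => rfl⟩
  have e3 : (d.ring →ₐ[ℤ] K) ≃ (Conf (![] : Fin 0 → ℤ) d.line d.coll →ₐ[ℤ] K) :=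
    (confE (![] : Fin 0 → ℤ) d.line d.coll).symm.arrowCongr AlgEquiv.refl
  exact Nat.card_congr (((e1.trans e2).trans e3).trans
    (confPoints (![] : Fin 0 → ℤ) d.line d.coll K))

lemma ft_datum (d : Datum) : FT False (aff ℤ d.ring) :=
  have := ft_ring (![] : Fin 0 → ℤ) d.line d.coll
  ft_aff False

theorem decomposition (n : ℕ) (X : Scheme.{0}) (f : X ⟶ Spec (CommRingCat.of ℤ))
    (h1 : LocallyOfFiniteType f) (h2 : QuasiCompact f) (h3 : FibLE n f) :
    ∃ (k : ℕ) (d : Fin k → Datum) (g : ∀ i, (d i).space ⟶ X), Decomposition n X d g := by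
  have hX : FT False (Over.mk f : Sch ℤ) := ⟨h1, h2, fun h => h.elim⟩
  obtain ⟨k, C, g, hC, hg, hx⟩ := strata n (Over.mk f) hX h3
  choose d hd hCd using hC
  obtain rfl : C = fun i => aff ℤ (d i).ring := funext hCd
  have hft : ∀ i, FT False (aff ℤ (d i).ring) := fun i => ft_datum (d i)
  refine ⟨k, d, fun i => (g i).left, hd, hg, hx, ?_, zeta_prod hX hft g hg hx⟩
  intro K _ _
  have h4 := field_points (fun i => (g i).left) hg hx K
  refine (Nat.card_congr (Equiv.ofBijective _ h4)).symm.trans ?_
  have hfin : ∀ i, Finite (Spec (CommRingCat.of K) ⟶ (aff ℤ (d i).ring).left) := by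
    intro i
    have h6 := ft_ring (![] : Fin 0 → ℤ) (d i).line (d i).coll
    have h5 : Finite ((d i).ring →+* K) := finite_hom (d i).ring
    have e1 : (Spec (CommRingCat.of K) ⟶ (aff ℤ (d i).ring).left) ≃ ((d i).ring →+* K) :=
      Spec.homEquiv.trans (ConcreteCategory.homEquiv (C := CommRingCat))
    exact Finite.of_equiv _ e1.symm
  rw [Nat.card_sigma]
  exact Finset.sum_congr rfl fun i _ => config_card (d i) K

/-- **Every arithmetic scheme is a disjoint union of spaces of configurations of points on four
lines**, and the consequences for the zeta functions. -/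
theorem result (n : ℕ) :
    (∀ (X : Scheme.{0}) (f : X ⟶ Spec (CommRingCat.of ℤ)),
      LocallyOfFiniteType f → QuasiCompact f → FibLE n f →
        ∃ (k : ℕ) (d : Fin k → Datum) (g : ∀ i, (d i).space ⟶ X), Decomposition n X d g) ∧
    (∀ S : Set ℂ, AllSchemes S n ↔ Configurations S n) ∧
    (∀ S : Set ℂ, (∀ s, s + 1 ∈ S ↔ s ∈ S) → Configurations S n → LFunctions S n) := by
  have key : ∀ S : Set ℂ, AllSchemes S n ↔ Configurations S n := by
    intro S
    constructor
    · intro h d hd
      have hft : FT False (aff ℤ d.ring) := ft_datum d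
      exact h d.space _ hft.locallyOfFiniteType hft.quasiCompact hd.fibres
    · intro h X f h1 h2 h3
      have hX : FT False (Over.mk f : Sch ℤ) := ⟨h1, h2, fun h => h.elim⟩
      refine (continues_iff S (Over.mk f)).2 ?_
      have hglue : Glue False (ZMer S) :=
        ⟨fun hX e h => by
          obtain ⟨e⟩ := e
          exact zmer_iso hX e h, fun i j hX ht hZ hU => by
          obtain ⟨σ, h⟩ := triple_split hX ht
          exact h.mer_all hZ hU⟩
      refine conf_int hglue (hered_fib n) (confFam_of_ring hglue (hered_fib n) generic_int ?_) ?_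
        (Over.mk f) hX h3
      · intro N l Z h1 h2 h3 h4
        exact (continues_iff S (aff ℤ _)).1 (h ⟨N, l, Z⟩ (dim_fine (d := ⟨N, l, Z⟩) h1 h2 h3 h4))
      · intro B _ _ hB
        have hE' : IsEmpty (PrimeSpectrum B) := inferInstance
        have hE : IsEmpty (CP (aff ℤ B).left) := ⟨fun x => hE'.elim x.1⟩
        refine ⟨fun _ => 1, ⟨fun s _ => MeromorphicAt.const 1 s, fun s _ => ?_⟩, 0, fun s _ => ?_⟩
        · have h6 : AnalyticAt ℂ (fun _ : ℂ => (1 : ℂ)) s := analyticAt_const
          rw [h6.meromorphicOrderAt_eq]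
          have h7 : analyticOrderAt (fun _ : ℂ => (1 : ℂ)) s = 0 :=
            h6.analyticOrderAt_eq_zero.2 one_ne_zero
          rw [h7]
          rfl
        · exact tprod_empty.symm
  refine ⟨decomposition n, key, ?_⟩
  intro S hS h N X f hf b r Y g hg c t ε α w hε hw hc
  have hall := (key S).2 h
  have h2 : ∀ {X : Scheme.{0}} {f : X ⟶ Spec (CommRingCat.of (ZN N))}, IsModel n f →
      ZMer S (baseZ f) := by
    intro X f hf
    have h3 := ft_baseZ f hf.1 hf.2.1
    exact (continues_iff S (baseZ f)).1
      (hall _ _ h3.locallyOfFiniteType h3.quasiCompact hf.2.2)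
  obtain ⟨F, hF, h3⟩ := hasseWeil_gen hS f hf.1 hf.2.1 (h2 hf) g (fun l => (hg l).1)
    (fun l => (hg l).2.1) (fun l => h2 (hg l)) hw c t hε hc
  exact ⟨F, ⟨hF.mero, hF.order⟩, h3⟩

end Pool.Agent.Results.MP_039d94_nt.PointConfigurations
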