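import Pool.Agent.H480.X4

/-!
# L-functions without singularities, except for a pole at the edge: a criterion of finite rank

Let `L(s) = ∏_p P_p(p^(-s))⁻¹` be an Euler product of the form of the `L`-function of `H^i(X)`: the local polynomials `P_p`
are real, of degree at most `d`, with constant term `1`, and their inverse roots have absolute value at most `p^(i/2)`. Put
`s₀ = i/2 + 1`, let `a(n)` be the Dirichlet coefficients of `L(s)`, and let

  `V_λ(x) = ∑_n a(n) exp(- log(x/n)² / (2λ))`

be their sum around `x`, smoothed by a Gaussian in the logarithmic scale. The conjecture for `L(H^i(X), s)` says that it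
continues to the whole plane, without singularities except for a pole at `s₀`, of some order `r` (which is the order of
the pole in Tate's conjecture; `r = 0` for odd `i`). We prove that, for every `r ≥ 1`, the following are equivalent:

* `(s - s₀)^r L(s)` continues to an entire function, of growth `O(exp(C t²))` in vertical strips for some `C`, which does
  not vanish at `s₀`;
* for one `λ > 0` (equivalently: for all large `λ`), the functions `V_λ(X x y)`, `(x, y) ∈ [1, A] × [1, A']`, have
  approximate rank at most `r` with an error smaller than every negative power of `X`: for all `β ∈ ℝ` and each large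
  `X` there are `u_1, …, u_r`, `v_1, …, v_r`, depending on `X` in any way, with
  `|V_λ(X x y) - ∑_(k ≤ r) u_k(x) v_k(y)| ≤ X^β` everywhere on the rectangle; and `|V_λ(x)| ≥ c x^(s₀) (log x)^(r-1)`
  for large `x`, with some `c > 0`.

In particular the position of the only singularity (`s₀`, and not some other point on the edge or inside) and the order `r`
are read off from the size of `V_λ`: a function of rank `r` cannot be as large as `x^(s₀) (log x)^(r-1)` unless all its
`r` exponents are equal to `s₀`. In this case `V_λ(x)/(x^(s₀)(log x)^(r-1))` converges to a limit `≠ 0`. For `r = 0` (as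
conjectured for odd `i`) the criterion holds without the condition on the size.

The theorem holds for all real `a(n)` for which `∑ a(n) n^(-s)` converges absolutely for `Re s > s₀`.

Proof. The functions `u_k`, `v_k` at different `X` are unrelated; by the rigidity theorem of Pool.Agent.H480.K1 - K4 (the
recurrences given by the approximations are compatible) and cross approximation (Pool.Agent.H480.N1) one gets the
continuation of `L(s)` with at most `r` poles `ρ_j` in the plane. Multiplied by `± exp(λs²/2)` it is the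
Laplace transform of `± V_λ(e^u)`, which is positive for large `u`; a lower bound for the transform at `σ → s₀ + 0` shows
that `r` of the `ρ_j`, that is all of them, are `s₀`. Conversely the continuation gives the approximate rank by contour
integrals; by Pool.Agent.H480.Q3 the ranks give an expansion of `V_λ(x)` in powers of `x` and `log x`, the exponents
of which are the poles of the Laplace transform.
-/

set_option autoImplicit false

open Filter Topology MeasureTheory Set

namespace Pool.Agent.Results.MP_039d94_nt.PoleAtTheEdge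

/-- the completely multiplicative function with the values `β p` at the primes `p` -/
noncomputable def completelyMultiplicative (β : ℕ → ℂ) : ArithmeticFunction ℂ :=
  ⟨fun n => if n = 0 then 0 else n.factorization.prod fun p k => β p ^ k, by simp⟩

/-- the Dirichlet coefficients of `∏_p ∏_j (1 - α_j(p) p^(-s))⁻¹`: the Dirichlet convolution of the completely
multiplicative functions with the values `α_j(p)` -/
noncomputable def coeff {d : ℕ} (α : Fin d → ℕ → ℂ) : ArithmeticFunction ℂ := ∏ j, completelyMultiplicative (α j)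

/-- local factors like those of `L(H^i(X), s)`: real polynomials `P_p(T) = ∏_j (1 - α_j(p) T)`, `|α_j(p)| ≤ p^(i/2)` -/
structure LocalFactors (i : ℕ) {d : ℕ} (P : ℕ → Polynomial ℝ) (α : Fin d → ℕ → ℂ) : Prop where
  factor : ∀ p : ℕ, p.Prime →
    (P p).map (algebraMap ℝ ℂ) = ∏ j, (1 - Polynomial.C (α j p) * Polynomial.X)
  weight : ∀ j, ∀ p : ℕ, p.Prime → ‖α j p‖ ≤ (p : ℝ) ^ ((i : ℝ) / 2)

/-- the `a(n)` are real and the series `∑ a(n) n^(-s)` converges absolutely for `Re s > s₀` -/
structure Admissible (a : ℕ → ℂ) (s₀ : ℝ) : Prop where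
  real : ∀ n, (a n).im = 0
  summable : ∀ σ : ℝ, s₀ < σ → LSeriesSummable a σ

/-- the smoothed sum `V_λ(x) = ∑ a(n) exp(- log(x/n)² / (2λ))`, `n ≥ 1` -/
noncomputable def V (a : ℕ → ℂ) (lam x : ℝ) : ℂ :=
  ∑' n : ℕ, if n = 0 then 0 else a n * (Real.exp (-Real.log (x / n) ^ 2 / (2 * lam)) : ℝ)

/-- on the rectangle `[1, A] × [1, A']` the function `S(X x y)` is within `X^β` of a sum of `r` products -/
def ApproximateRank (S : ℝ → ℂ) (A A' : ℝ) (r : ℕ) (β X : ℝ) : Prop :=
  ∃ u v : Fin r → ℝ → ℂ, ∀ x ∈ Icc 1 A, ∀ y ∈ Icc 1 A', ‖S (X * x * y) - ∑ k, u k x * v k y‖ ≤ X ^ β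

/-- `F(s) = ∑ a(n) n^(-s)` continues to the whole plane, without singularities except for a pole of order `r` at `s₀`:
`(s - s₀)^r F(s)` is entire, of growth `O(exp(C t²))` in vertical strips, and, if `r ≠ 0`, not zero at `s₀` -/
def OnlyPole (a : ℕ → ℂ) (s₀ : ℝ) (r : ℕ) : Prop :=
  ∃ g : ℂ → ℂ, Differentiable ℂ g ∧ (∀ s : ℂ, s₀ < s.re → g s = (s - s₀) ^ r * LSeries a s) ∧ (r ≠ 0 → g s₀ ≠ 0) ∧
    ∃ C : ℝ, ∀ σ₁ σ₂ : ℝ, ∃ K : ℝ, ∀ s : ℂ, σ₁ ≤ s.re → s.re ≤ σ₂ → ‖g s‖ ≤ K * Real.exp (C * s.im ^ 2)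

open Pool.Agent.H480.K Pool.Agent.H480.X in
theorem result :
    -- Euler products like `L(H^i(X), s)`: the coefficients are admissible for `s₀ = i/2 + 1`
    (∀ (i d : ℕ) (P : ℕ → Polynomial ℝ) (α : Fin d → ℕ → ℂ), LocalFactors i P α →
      Admissible (coeff α) ((i : ℝ) / 2 + 1) ∧ ∀ s : ℂ, (i : ℝ) / 2 + 1 < s.re →
        LSeries (coeff α) s = ∏' p : Nat.Primes, ((P p).aeval ((p : ℂ) ^ (-s)))⁻¹) ∧
    ∀ (a : ℕ → ℂ) (s₀ : ℝ), Admissible a s₀ → ∀ A A' : ℝ, 1 < A → 1 < A' → ∀ r : ℕ, List.TFAE
      [OnlyPole a s₀ r,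
       ∃ lam₀ : ℝ, ∀ lam : ℝ, lam₀ < lam →
        (∀ β : ℝ, ∀ᶠ X : ℝ in atTop, ApproximateRank (V a lam) A A' r β X) ∧
        (r ≠ 0 → ∃ L : ℂ, L ≠ 0 ∧
          Tendsto (fun x : ℝ => V a lam x / ((x ^ s₀ * Real.log x ^ (r - 1) : ℝ) : ℂ)) atTop (𝓝 L)),
       ∃ lam : ℝ, 0 < lam ∧
        (∀ β : ℝ, ∀ᶠ X : ℝ in atTop, ApproximateRank (V a lam) A A' r β X) ∧
        (r ≠ 0 → ∃ c : ℝ, 0 < c ∧ ∀ᶠ x : ℝ in atTop, c * (x ^ s₀ * Real.log x ^ (r - 1)) ≤ ‖V a lam x‖)] := by
  refine ⟨fun i d P α h => ?_, fun a s₀ hadm A A' hA hA' r => ?_⟩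
  · have h0 := fun (s : ℂ) (hs : (i : ℝ) / 2 + 1 < s.re) => cf_series α h.weight 1 hs
    have e1 : coeff α = Pool.Agent.H480.X.cf α 1 := by
      unfold Pool.Agent.H480.X.cf
      rw [pow_one]
      rfl
    have hsum : ∀ s : ℂ, (i : ℝ) / 2 + 1 < s.re → LSeriesHasSum (coeff α) s
        (∏' p : Nat.Primes, ((P p).aeval ((p : ℂ) ^ (-s)))⁻¹) := by
      intro s hs
      have h1 := h0 s hs
      rw [pow_one] at h1
      have h2 : (∏' p : Nat.Primes, ((P p).aeval ((p : ℂ) ^ (-s)))⁻¹) =
          ∏' p : Nat.Primes, ∏ j, (1 - α j p * (p : ℂ) ^ (-s))⁻¹ := by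
        refine tprod_congr fun p => ?_
        rw [Finset.prod_inv_distrib]
        congr 1
        have h3 := congrArg (Polynomial.eval ((p : ℂ) ^ (-s))) (h.factor p p.2)
        rw [Polynomial.eval_prod, Polynomial.eval_map_algebraMap] at h3
        rw [h3]
        simp
      rw [h2, e1]
      exact h1
    refine ⟨⟨fun n => cf_real α h.weight h.factor n, fun σ hσ => ?_⟩, fun s hs => (hsum s hs).LSeries_eq⟩
    exact (hsum σ (by rw [Complex.ofReal_re]; exact hσ)).LSeriesSummable
  · obtain ⟨B, hB⟩ := (hadm.summable (s₀ + 1) (by linarith)).le_const_mul_rpow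
    rw [Complex.ofReal_re] at hB
    have hB' : ∀ n : ℕ, n ≠ 0 → ‖a n‖ ≤ |B| * (n : ℝ) ^ (s₀ + 1) := fun n hn =>
      (hB n hn).trans (mul_le_mul_of_nonneg_right (le_abs_self _) (by positivity))
    tfae_have 1 → 2 := by
      rintro ⟨g, hg, hform, hg0, C, hC⟩
      refine ⟨max 0 (2 * C), fun lam hl => ?_⟩
      have hl0 : 0 < lam := (le_max_left _ _).trans_lt hl
      have hrank : ∀ β : ℝ, ∀ᶠ X : ℝ in atTop, NearS (VV a lam) A A' r β X := by
        intro β
        refine sup_of_mero (abs_nonneg B) hB' hA hA' (δ := ⊥) (ρ := fun _ : Fin r => (s₀ : ℂ)) (g := g) (c₀ := s₀) hl0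
          ((le_max_right _ _).trans_lt hl) (fun j => EReal.bot_lt_coe _) (fun s _ => hg s) (fun s hs => ?_)
          (fun σ₁ σ₂ _ => hC σ₁ σ₂) (EReal.bot_lt_coe _)
        rw [hform s hs]
        simp
      refine ⟨hrank, fun hr => ?_⟩
      obtain ⟨k, rfl⟩ := Nat.exists_eq_succ_of_ne_zero hr
      exact size_of_pole (abs_nonneg B) hB' hadm.summable hl0 hA hA' hrank hg hform (hg0 hr)
    tfae_have 2 → 3 := by
      rintro ⟨lam₀, h⟩
      have hm1 := le_max_left lam₀ 0
      have hm2 := le_max_right lam₀ 0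
      refine ⟨max lam₀ 0 + 1, by linarith, (h _ (by linarith)).1, fun hr => ?_⟩
      obtain ⟨L, hL, hlim⟩ := (h (max lam₀ 0 + 1) (by linarith)).2 hr
      have hL0 : 0 < ‖L‖ := norm_pos_iff.2 hL
      refine ⟨‖L‖ / 2, by positivity, ?_⟩
      filter_upwards [hlim.norm.eventually (lt_mem_nhds (show ‖L‖ / 2 < ‖L‖ by linarith)), eventually_gt_atTop 1] with x hx hx1
      have hx0 : 0 < x := by linarith
      have hlog := Real.log_pos hx1
      have hpos : 0 < x ^ s₀ * Real.log x ^ (r - 1) := by positivity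
      rw [norm_div, Complex.norm_real, Real.norm_eq_abs, abs_of_pos hpos, lt_div_iff₀ hpos] at hx
      exact hx.le
    tfae_have 3 → 1 := by
      rintro ⟨lam, hl, hrank, hsz⟩
      obtain ⟨g, hg, hform, hg0, hgr⟩ := pole_of_rank (abs_nonneg B) hB' hadm.real hadm.summable hl hA hA' hrank hsz
      exact ⟨g, hg, hform, hg0, lam, fun σ₁ σ₂ => hgr σ₁ σ₂ (EReal.bot_lt_coe _)⟩
    tfae_finish

end Pool.Agent.Results.MP_039d94_nt.PoleAtTheEdge
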